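import Pool.Agent.Helper99.BQ.Basic
import Pool.Agent.Helper60.BQ.H1
import Pool.Agent.Helper38.BQ.H2
import Pool.Agent.Helper40.BQ.H3
import Pool.Agent.Helper40.BQ.H4

/-! MP_986e36_gt, Q2, block S2: the holonomy map is smooth and its trivialised derivative is a
coisometry. -/

open scoped Manifold ContDiff Quaternion ENNReal Topology
open Bundle Set Metric MeasureTheory Filter

noncomputable section

namespace Helper99.BQ

namespace S2h

theorem cj_zero {k : ℝ → ℍ[ℝ]} (hk : ContinuousOn k (Icc 0 1))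
    (hk0 : ∀ t ∈ Icc (0 : ℝ) 1, k t ≠ 0) : H4h.cjIso hk hk0 0 = 0 := by
  change H4h.cj hk hk0 0 = 0
  apply Lp.ext
  filter_upwards [H4h.cj_spec hk hk0 0, Lp.coeFn_zero ℍ[ℝ] 2 μI] with t h1 h2
  rw [h1, h2]
  simp

/-- pointwise conjugation as a linear isometry of `L²` -/
def cjL {k : ℝ → ℍ[ℝ]} (hk : IsPath k) : HH ≃ₗᵢ[ℝ] HH :=
  (H4h.cjIso hk.smooth.continuousOn hk.ne).toRealLinearIsometryEquivOfMapZero
    (cj_zero hk.smooth.continuousOn hk.ne)

theorem cjL_apply {k : ℝ → ℍ[ℝ]} (hk : IsPath k) (f : HH) :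
    cjL hk f = H4h.cj hk.smooth.continuousOn hk.ne f := rfl

theorem cjL_gauge {k g : ℝ → ℍ[ℝ]} (hk : IsPath k) (hg : IsPath g) :
    cjL hk (wLp g hg - wLp k hk) =
      wLp (fun t => k 0 * g t * (k t)⁻¹) (H4h.isPath_gauge hk hg) := by
  apply Lp.ext
  rw [cjL_apply]
  have h1 := H4h.cj_spec hk.smooth.continuousOn hk.ne (wLp g hg - wLp k hk)
  have h2 := Lp.coeFn_sub (wLp g hg) (wLp k hk)
  have h3 : wLp g hg =ᵐ[μI] vel g := MemLp.coeFn_toLp (memLp_vel hg)
  have h4 : wLp k hk =ᵐ[μI] vel k := MemLp.coeFn_toLp (memLp_vel hk)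
  have h5 : wLp (fun t => k 0 * g t * (k t)⁻¹) (H4h.isPath_gauge hk hg) =ᵐ[μI]
      vel (fun t => k 0 * g t * (k t)⁻¹) := MemLp.coeFn_toLp _
  filter_upwards [H4h.ae_mem, h1, h2, h3, h4, h5] with t ht a1 a2 a3 a4 a5
  rw [a1, a2, a5, Pi.sub_apply, a3, a4, H4h.vel_gauge hk hg ht]

/-- `dG`-Lipschitz maps without zeros are continuous -/
theorem hol_continuous {hol : HH → ℍ[ℝ]} (hne : ∀ f, hol f ≠ 0)
    (hlip : ∀ f f' : HH, dG (hol f) (hol f') ≤ ‖f - f'‖) : Continuous hol := by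
  have hpos : ∀ f, 0 < ‖hol f‖ := fun f => norm_pos_iff.2 (hne f)
  have c1 : Continuous fun f => Real.log ‖hol f‖ := by
    have : LipschitzWith 1 fun f => Real.log ‖hol f‖ := by
      refine LipschitzWith.of_dist_le_mul fun f f' => ?_
      rw [Real.dist_eq, dist_eq_norm]
      simpa using (H3h.log_le_dG _ _).trans (hlip f f')
    exact this.continuous
  have hu1 : ∀ f, ‖(‖hol f‖⁻¹ • hol f)‖ = 1 := by
    intro n
    rw [norm_smul, norm_inv, norm_norm, inv_mul_cancel₀ (hpos n).ne']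
  have c2 : Continuous fun f => ‖hol f‖⁻¹ • hol f := by
    have : LipschitzWith 1 fun f => ‖hol f‖⁻¹ • hol f := by
      refine LipschitzWith.of_dist_le_mul fun f f' => ?_
      rw [dist_eq_norm, dist_eq_norm]
      refine (H3h.norm_sub_le_angle (hu1 f) (hu1 f')).trans ?_
      rw [InnerProductGeometry.angle_smul_left_of_pos _ _ (inv_pos.2 (hpos f)),
        InnerProductGeometry.angle_smul_right_of_pos _ _ (inv_pos.2 (hpos f'))]
      simpa using (H3h.angle_le_dG _ _).trans (hlip f f')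
    exact this.continuous
  have h3 : hol = fun f => Real.exp (Real.log ‖hol f‖) • (‖hol f‖⁻¹ • hol f) := by
    funext f
    rw [Real.exp_log (hpos f), smul_smul, mul_inv_cancel₀ (hpos f).ne', one_smul]
  rw [h3]
  exact (Real.continuous_exp.comp c1).smul c2

/-- a closed property which holds for the velocities of all paths starting at `1` holds
everywhere -/
theorem closed_ind {P : HH → Prop} (hc : IsClosed {w | P w})
    (h : ∀ (g : ℝ → ℍ[ℝ]) (hg : IsPath g), g 0 = 1 → P (wLp g hg)) (w : HH) : P w := by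
  have h1 : w ∈ closure {w | P w} := by
    rw [Metric.mem_closure_iff]
    intro ε hε
    obtain ⟨g, hg, h0, hd⟩ := dense_paths w hε
    exact ⟨wLp g hg, h g hg h0, by rwa [dist_eq_norm]⟩
  rw [hc.closure_eq] at h1
  exact h1

/-- the gauge formula -/
theorem hol_gauge {hol : HH → ℍ[ℝ]} (hcont : Continuous hol)
    (hpath : ∀ (g : ℝ → ℍ[ℝ]) (hg : IsPath g), g 0 = 1 → hol (wLp g hg) = g 1)
    {k : ℝ → ℍ[ℝ]} (hk : IsPath k) (hk1 : k 0 = 1) (w : HH) :
    hol w = hol (cjL hk (w - wLp k hk)) * k 1 := by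
  have hc : IsClosed {w : HH | hol w = hol (cjL hk (w - wLp k hk)) * k 1} := by
    refine isClosed_eq hcont ?_
    exact (hcont.comp ((cjL hk).continuous.comp (continuous_id.sub continuous_const))).mul
      continuous_const
  refine closed_ind hc (fun g hg h0 => ?_) w
  rw [cjL_gauge hk hg, hpath g hg h0, hpath _ _ (by simp [hk1, h0]), hk1, one_mul,
    inv_mul_cancel_right₀ (hk.ne 1 (by simp))]

/-- the end point map equals `hol` on the unit ball -/
theorem hol_eq {hol : HH → ℍ[ℝ]} (hcont : Continuous hol)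
    (hpath : ∀ (g : ℝ → ℍ[ℝ]) (hg : IsPath g), g 0 = 1 → hol (wLp g hg) = g 1)
    {F : HH → ℍ[ℝ]} (hF : ContinuousOn F (ball (0 : HH) 1))
    (hFp : ∀ (g : ℝ → ℍ[ℝ]) (hg : IsPath g), g 0 = 1 → wLp g hg ∈ ball (0 : HH) 1 →
      F (wLp g hg) = g 1) {w : HH} (hw : w ∈ ball (0 : HH) 1) : hol w = F w := by
  choose g hg h0 hd using fun n : ℕ => dense_paths w (ε := 1 / ((n : ℝ) + 1)) (by positivity)
  have hlim : Tendsto (fun n => wLp (g n) (hg n)) atTop (𝓝 w) := by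
    rw [tendsto_iff_norm_sub_tendsto_zero]
    refine squeeze_zero (fun n => norm_nonneg _) (fun n => ?_)
      (tendsto_one_div_add_atTop_nhds_zero_nat (𝕜 := ℝ))
    rw [norm_sub_rev]
    exact (hd n).le
  have h1 : Tendsto (fun n => hol (wLp (g n) (hg n))) atTop (𝓝 (hol w)) :=
    (hcont.tendsto w).comp hlim
  have h2 : Tendsto (fun n => F (wLp (g n) (hg n))) atTop (𝓝 (F w)) :=
    ((hF.continuousAt (isOpen_ball.mem_nhds hw)).tendsto).comp hlim
  have h3 : ∀ᶠ n in atTop, F (wLp (g n) (hg n)) = hol (wLp (g n) (hg n)) := by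
    filter_upwards [hlim.eventually (isOpen_ball.mem_nhds hw)] with n hn
    rw [hFp _ _ (h0 n) hn, hpath _ _ (h0 n)]
  exact tendsto_nhds_unique (h1.congr' (h3.mono fun n hn => hn.symm)) h2

theorem hol_contDiff {hol : HH → ℍ[ℝ]} (hcont : Continuous hol)
    (hpath : ∀ (g : ℝ → ℍ[ℝ]) (hg : IsPath g), g 0 = 1 → hol (wLp g hg) = g 1)
    (hball : ∀ w ∈ ball (0 : HH) 1, ContDiffAt ℝ ∞ hol w) : ContDiff ℝ ∞ hol := by
  rw [contDiff_iff_contDiffAt]
  intro w
  obtain ⟨k, hk, hk0, hd⟩ := dense_paths w one_pos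
  have h1 : hol = fun w => hol (cjL hk (w - wLp k hk)) * k 1 :=
    funext (hol_gauge hcont hpath hk hk0)
  rw [h1]
  have h2 : ContDiffAt ℝ ∞ (fun w : HH => cjL hk (w - wLp k hk)) w :=
    ((cjL hk).contDiff.comp (contDiff_id.sub contDiff_const)).contDiffAt
  have h3 : ContDiffAt ℝ ∞ hol (cjL hk (w - wLp k hk)) := by
    refine hball _ ?_
    rw [mem_ball_zero_iff, (cjL hk).norm_map]
    exact hd
  exact (h3.comp w h2).mul contDiffAt_const

theorem inner_conj {q : ℍ[ℝ]} (hq : q ≠ 0) (x y : ℍ[ℝ]) :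
    (inner ℝ (q * x * q⁻¹) y : ℝ) = inner ℝ x (q⁻¹ * (y * q)) := by
  have h1 : (q * x * q⁻¹ * q) = q * x := inv_mul_cancel_right₀ hq _
  have h2 : (inner ℝ (q * x * q⁻¹ * q) (y * q) : ℝ) = ‖q‖ ^ 2 * inner ℝ (q * x * q⁻¹) y :=
    inner_mul_right' _ _ _
  have h3 : (inner ℝ (q * x) (y * q) : ℝ) = ‖q‖ ^ 2 * inner ℝ x (q⁻¹ * (y * q)) := by
    have h4 : y * q = q * (q⁻¹ * (y * q)) := (mul_inv_cancel_left₀ hq _).symm
    rw [h4]
    simp only [inv_mul_cancel_left₀ hq]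
    generalize q⁻¹ * (y * q) = z
    rw [inner_def', inner_def', qnorm_sq]
    simp only [Quaternion.re_mul, Quaternion.imI_mul, Quaternion.imJ_mul, Quaternion.imK_mul]
    ring
  rw [h1, h3] at h2
  have h5 : ‖q‖ ^ 2 ≠ 0 := pow_ne_zero _ (norm_ne_zero_iff.2 hq)
  exact (mul_left_cancel₀ h5 h2).symm

/-- constants in `L²` -/
def cst (c : ℍ[ℝ]) : HH := (memLp_const c).toLp _

theorem cst_spec (c : ℍ[ℝ]) : cst c =ᵐ[μI] fun _ => c := MemLp.coeFn_toLp _

theorem integral_cst (c : ℍ[ℝ]) : ∫ t, cst c t ∂μI = c := by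
  rw [integral_congr_ae (cst_spec c)]
  simp

theorem inner_cst (c : ℍ[ℝ]) (v : HH) : (inner ℝ (cst c) v : ℝ) = inner ℝ c (∫ t, v t ∂μI) := by
  rw [L2.inner_def]
  have h1 : ∫ t, (inner ℝ (cst c t) (v t) : ℝ) ∂μI = ∫ t, (inner ℝ c (v t) : ℝ) ∂μI := by
    apply integral_congr_ae
    filter_upwards [cst_spec c] with t ht
    rw [ht]
  rw [h1]
  exact integral_inner ((Lp.memLp v).integrable (by norm_num)) c

theorem coisom {A : HH →L[ℝ] ℍ[ℝ]} {T : HH ≃ₗᵢ[ℝ] HH} {q : ℍ[ℝ]} (hq : q ≠ 0)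
    (hA : ∀ v, A v = q⁻¹ * ((∫ t, T v t ∂μI) * q)) (u : ℍ[ℝ]) :
    A (ContinuousLinearMap.adjoint A u) = u := by
  have h1 : ContinuousLinearMap.adjoint A u = T.symm (cst (q * u * q⁻¹)) := by
    apply ext_inner_right ℝ
    intro v
    rw [ContinuousLinearMap.adjoint_inner_left, hA, ← inner_conj hq, ← inner_cst,
      ← T.symm.inner_map_map, T.symm_apply_apply]
  rw [h1, hA, T.apply_symm_apply, integral_cst, mul_assoc (q * u), inv_mul_cancel₀ hq, mul_one,
    inv_mul_cancel_left₀ hq]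

/-- the trivialised derivative -/
def tr (hol : HH → ℍ[ℝ]) (w : HH) : HH →L[ℝ] ℍ[ℝ] :=
  (ContinuousLinearMap.mul ℝ ℍ[ℝ] (hol w)⁻¹).comp (fderiv ℝ hol w)

theorem tr_continuous {hol : HH → ℍ[ℝ]} (hne : ∀ f, hol f ≠ 0) (hs : ContDiff ℝ ∞ hol) :
    Continuous (tr hol) := by
  unfold tr
  refine Continuous.clm_comp ?_ (hs.continuous_fderiv (by simp))
  exact (ContinuousLinearMap.mul ℝ ℍ[ℝ]).continuous.comp (hs.continuous.inv₀ hne)

end S2h

open S2h in
/-- S2 from S1 -/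
theorem exists_hol_smooth_of (hS1 : ∃ (F : HH → ℍ[ℝ]) (I : HH →L[ℝ] ℍ[ℝ]),
    (∀ v : HH, I v = ∫ t, v t ∂μI) ∧
    (∀ w ∈ ball (0 : HH) 1, ContDiffAt ℝ ∞ F w) ∧ HasFDerivAt F I 0 ∧
    ∀ (g : ℝ → ℍ[ℝ]) (hg : IsPath g), g 0 = 1 → wLp g hg ∈ ball (0 : HH) 1 →
      F (wLp g hg) = g 1) : ∃ hol : HH → ℍ[ℝ], (∀ f, hol f ≠ 0) ∧
    (∀ (g : ℝ → ℍ[ℝ]) (hg : IsPath g), g 0 = 1 → hol (wLp g hg) = g 1) ∧
    ContDiff ℝ ∞ hol ∧
    ∀ (w : HH) (A : HH →L[ℝ] ℍ[ℝ]), (∀ v, hol w * A v = fderiv ℝ hol w v) →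
      ∀ u : ℍ[ℝ], A (ContinuousLinearMap.adjoint A u) = u := by
  obtain ⟨F, I, hI, hFs, hFd, hFp⟩ := hS1
  obtain ⟨hol, hne, hpath, hlip⟩ := exists_hol
  have hcont : Continuous hol := hol_continuous hne hlip
  have hFc : ContinuousOn F (ball (0 : HH) 1) := fun w hw =>
    (hFs w hw).continuousAt.continuousWithinAt
  have heq : ∀ w ∈ ball (0 : HH) 1, hol w = F w := fun w hw => hol_eq hcont hpath hFc hFp hw
  have hev : ∀ w ∈ ball (0 : HH) 1, hol =ᶠ[𝓝 w] F := fun w hw => by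
    filter_upwards [isOpen_ball.mem_nhds hw] with x hx
    exact heq x hx
  have hball : ∀ w ∈ ball (0 : HH) 1, ContDiffAt ℝ ∞ hol w := fun w hw =>
    (hFs w hw).congr_of_eventuallyEq (hev w hw)
  have hs : ContDiff ℝ ∞ hol := hol_contDiff hcont hpath hball
  have hd0 : HasFDerivAt hol I 0 := hFd.congr_of_eventuallyEq (hev 0 (by simp))
  refine ⟨hol, hne, hpath, hs, ?_⟩
  have key : ∀ w : HH, ∀ u : ℍ[ℝ],
      tr hol w (ContinuousLinearMap.adjoint (tr hol w) u) = u := by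
    intro w
    refine closed_ind (P := fun w => ∀ u : ℍ[ℝ],
      tr hol w (ContinuousLinearMap.adjoint (tr hol w) u) = u) ?_ (fun k hk hk0 u => ?_) w
    · rw [ofPred_forall]
      refine isClosed_iInter fun u => isClosed_eq ?_ continuous_const
      have h1 := tr_continuous hne hs
      have h2 : Continuous fun w => ContinuousLinearMap.adjoint (tr hol w) :=
        (ContinuousLinearMap.adjoint (𝕜 := ℝ) (E := HH) (F := ℍ[ℝ])).continuous.comp h1
      exact h1.clm_apply (h2.clm_apply continuous_const)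
    · refine coisom (T := cjL hk) (hk.ne 1 (by simp)) (fun v => ?_) u
      have h1 : hol = fun w => hol (cjL hk (w - wLp k hk)) * k 1 :=
        funext (hol_gauge hcont hpath hk hk0)
      have h2 : HasFDerivAt (fun w : HH => cjL hk (w - wLp k hk))
          ((cjL hk).toContinuousLinearEquiv : HH →L[ℝ] HH) (wLp k hk) := by
        have h3 : HasFDerivAt (fun w : HH => w - wLp k hk) (ContinuousLinearMap.id ℝ HH)
          (wLp k hk) := (hasFDerivAt_id _).sub_const _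
        have h4 := ((cjL hk).toContinuousLinearEquiv : HH →L[ℝ] HH).hasFDerivAt.comp (wLp k hk) h3
        exact h4
      have h5 : HasFDerivAt hol I (cjL hk (wLp k hk - wLp k hk)) := by
        rw [sub_self, map_zero]
        exact hd0
      have h6 := (h5.comp (wLp k hk) h2).mul_const' (k 1)
      have h7 : HasFDerivAt hol _ (wLp k hk) := h6.congr_of_eventuallyEq
        (Filter.Eventually.of_forall fun w => hol_gauge hcont hpath hk hk0 w)
      simp only [tr, ContinuousLinearMap.comp_apply, ContinuousLinearMap.mul_apply']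
      rw [h7.fderiv, hpath k hk hk0]
      simp [hI]
  intro w A hA u
  have h1 : A = tr hol w := by
    ext1 v
    simp only [tr, ContinuousLinearMap.comp_apply, ContinuousLinearMap.mul_apply']
    rw [← hA v, inv_mul_cancel_left₀ (hne w)]
  rw [h1]
  exact key w u

end Helper99.BQ
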